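import Pool.Agent.W787.KG.Defs

/-!
# Project KG: spatial derivatives of the cosine transform
-/

open MeasureTheory Set Metric Filter Topology Real
open scoped ContDiff

noncomputable section

namespace Pool.Agent.W696.KG

open Pool.Agent.W787.KG

variable {G : Type} [NormedAddCommGroup G] [NormedSpace ℝ G]

/-- the integrand of the derivative -/
def DF (g : E → G) (ξ : E) : E →L[ℝ] G :=
  ContinuousLinearMap.smulRightL ℝ E G (innerSL ℝ ξ) (g ξ)

lemma DF_apply (g : E → G) (ξ v : E) : DF g ξ v = (inner ℝ ξ v : ℝ) • g ξ := rfl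

lemma DF_norm (g : E → G) (ξ : E) : ‖DF g ξ‖ ≤ ‖ξ‖ * ‖g ξ‖ := by
  refine ContinuousLinearMap.opNorm_le_bound _ (by positivity) (fun v => ?_)
  rw [DF_apply, norm_smul]
  calc ‖(inner ℝ ξ v : ℝ)‖ * ‖g ξ‖ ≤ (‖ξ‖ * ‖v‖) * ‖g ξ‖ :=
        mul_le_mul_of_nonneg_right (norm_inner_le_norm ξ v) (norm_nonneg _)
    _ = ‖ξ‖ * ‖g ξ‖ * ‖v‖ := by ring

lemma DF_cont (g : E → G) (hg : Continuous g) : Continuous (DF g) := by
  unfold DF
  exact ((ContinuousLinearMap.smulRightL ℝ E G).continuous.comp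
    (innerSL ℝ).continuous).clm_apply hg

lemma cos_cont (θ : ℝ) (x : E) : Continuous (fun ξ : E => Real.cos (inner ℝ ξ x + θ)) := by
  fun_prop

lemma int_cos (g : E → G) (hi : Integrable g) (θ : ℝ) (x : E) :
    Integrable (fun ξ => Real.cos (inner ℝ ξ x + θ) • g ξ) := by
  refine hi.norm.mono' ((cos_cont θ x).aestronglyMeasurable.smul hi.aestronglyMeasurable) ?_
  refine Filter.Eventually.of_forall (fun ξ => ?_)
  rw [norm_smul, Real.norm_eq_abs]
  calc |Real.cos (inner ℝ ξ x + θ)| * ‖g ξ‖ ≤ 1 * ‖g ξ‖ :=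
        mul_le_mul_of_nonneg_right (Real.abs_cos_le_one _) (norm_nonneg _)
    _ = ‖g ξ‖ := one_mul _

lemma int_DF (g : E → G) (hg : Continuous g) (hi1 : Integrable (fun ξ => ‖ξ‖ * ‖g ξ‖)) :
    Integrable (DF g) :=
  hi1.mono' (DF_cont g hg).aestronglyMeasurable (Filter.Eventually.of_forall (DF_norm g))

lemma gen (g : E → G) (hg : Continuous g) (hi : Integrable g)
    (hi1 : Integrable (fun ξ => ‖ξ‖ * ‖g ξ‖)) (θ : ℝ) (x : E) :
    HasFDerivAt (fun x => ∫ ξ, Real.cos (inner ℝ ξ x + θ) • g ξ)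
      (∫ ξ, Real.cos (inner ℝ ξ x + (θ + π / 2)) • DF g ξ) x := by
  apply hasFDerivAt_integral_of_dominated_of_fderiv_le (s := univ) (bound := fun ξ => ‖ξ‖ * ‖g ξ‖)
    (F := fun x ξ => Real.cos (inner ℝ ξ x + θ) • g ξ)
    (F' := fun x ξ => Real.cos (inner ℝ ξ x + (θ + π / 2)) • DF g ξ) univ_mem
  · exact Filter.Eventually.of_forall (fun y => (int_cos g hi θ y).aestronglyMeasurable)
  · exact int_cos g hi θ x
  · exact (int_cos (DF g) (int_DF g hg hi1) (θ + π / 2) x).aestronglyMeasurable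
  · refine Filter.Eventually.of_forall (fun ξ y _ => ?_)
    rw [norm_smul, Real.norm_eq_abs]
    calc |Real.cos (inner ℝ ξ y + (θ + π / 2))| * ‖DF g ξ‖ ≤ 1 * (‖ξ‖ * ‖g ξ‖) :=
          mul_le_mul (Real.abs_cos_le_one _) (DF_norm g ξ) (norm_nonneg _) zero_le_one
      _ = ‖ξ‖ * ‖g ξ‖ := one_mul _
  · exact hi1
  · refine Filter.Eventually.of_forall (fun ξ y _ => ?_)
    have h1 : HasFDerivAt (fun y : E => inner ℝ ξ y + θ) (innerSL ℝ ξ) y := by
      exact ((innerSL ℝ ξ).hasFDerivAt (x := y)).add_const θ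
    have h2 := (h1.cos).smul_const (g ξ)
    refine h2.congr_fderiv ?_
    ext v
    simp only [DF_apply, ContinuousLinearMap.smulRight_apply, ContinuousLinearMap.smul_apply,
      innerSL_apply_apply, smul_eq_mul]
    rw [← add_assoc, Real.cos_add_pi_div_two, smul_smul]

lemma CT_eq (f : E → ℝ) : CT f = fun x => ∫ ξ, Real.cos (inner ℝ ξ x + 0) • f ξ := by
  funext x
  simp only [CT, add_zero, smul_eq_mul]

theorem rx (h2 : S_WI) (h4 : S_WE) : S_RX := by
  intro f K hf hfK
  obtain ⟨w1, w2, w3, w4, w5⟩ := h4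
  have hK : 0 ≤ K := by
    have h1 := hfK 0
    have h3 := (w1 6 1 1 0 one_pos one_pos).1
    have h5 : 0 ≤ K * Wg 6 1 1 0 := (abs_nonneg _).trans h1
    by_contra hcon
    push Not at hcon
    nlinarith
  have bnd : ∀ k : ℕ, k ≤ 4 → Integrable (fun ξ : E => ‖ξ‖ ^ k * |f ξ|) := by
    intro k hk
    have h1 := (h2 (6 - k) (by omega)).1.const_mul K
    refine h1.mono' ((continuous_norm.pow k).mul hf.abs).aestronglyMeasurable ?_
    refine Filter.Eventually.of_forall (fun ξ => ?_)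
    rw [Real.norm_eq_abs, abs_of_nonneg (by positivity)]
    calc ‖ξ‖ ^ k * |f ξ| ≤ ‖ξ‖ ^ k * (K * Wg 6 1 1 ξ) :=
          mul_le_mul_of_nonneg_left (hfK ξ) (by positivity)
      _ = K * (‖ξ‖ ^ k * Wg 6 1 1 ξ) := by ring
      _ ≤ K * Wg (6 - k) 1 1 ξ := mul_le_mul_of_nonneg_left (w3 6 k ξ (by omega)) hK
  have i0 : Integrable f := by
    have := bnd 0 (by norm_num)
    simp only [pow_zero, one_mul] at this
    exact (integrable_norm_iff hf.aestronglyMeasurable).mp this
  have i1 : Integrable (fun ξ : E => ‖ξ‖ * ‖f ξ‖) := by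
    have := bnd 1 (by norm_num)
    simpa using this
  have hg1 : Continuous (DF f) := DF_cont f hf
  have j0 : Integrable (DF f) := int_DF f hf i1
  have j1 : Integrable (fun ξ : E => ‖ξ‖ * ‖DF f ξ‖) := by
    refine (bnd 2 (by norm_num)).mono' (continuous_norm.mul hg1.norm).aestronglyMeasurable ?_
    refine Filter.Eventually.of_forall (fun ξ => ?_)
    rw [Real.norm_eq_abs, abs_of_nonneg (by positivity)]
    calc ‖ξ‖ * ‖DF f ξ‖ ≤ ‖ξ‖ * (‖ξ‖ * ‖f ξ‖) :=
          mul_le_mul_of_nonneg_left (DF_norm f ξ) (norm_nonneg _)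
      _ = ‖ξ‖ ^ 2 * |f ξ| := by rw [Real.norm_eq_abs]; ring
  have d1 : ∀ x, HasFDerivAt (CT f) (∫ ξ, Real.cos (inner ℝ ξ x + (0 + π / 2)) • DF f ξ) x := by
    intro x
    rw [CT_eq]
    exact gen f hf i0 i1 0 x
  have d1' : fderiv ℝ (CT f) = fun x => ∫ ξ, Real.cos (inner ℝ ξ x + (0 + π / 2)) • DF f ξ :=
    funext (fun x => (d1 x).fderiv)
  refine ⟨?_, ?_, ?_⟩
  · intro x
    unfold CT
    calc |∫ ξ, Real.cos (inner ℝ ξ x) * f ξ| ≤ ∫ ξ, K * Wg 6 1 1 ξ := by
          rw [← Real.norm_eq_abs]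
          apply norm_integral_le_of_norm_le ((h2 6 (by norm_num)).1.const_mul K)
          refine Filter.Eventually.of_forall (fun ξ => ?_)
          rw [norm_mul, Real.norm_eq_abs, Real.norm_eq_abs]
          calc |Real.cos (inner ℝ ξ x)| * |f ξ| ≤ 1 * (K * Wg 6 1 1 ξ) :=
                mul_le_mul (Real.abs_cos_le_one _) (hfK ξ) (abs_nonneg _) zero_le_one
            _ = K * Wg 6 1 1 ξ := one_mul _
      _ = K * ∫ ξ, Wg 6 1 1 ξ := integral_const_mul _ _
  · intro x v
    rw [d1']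
    simp only
    rw [ContinuousLinearMap.integral_apply (int_cos (DF f) j0 _ x), ← integral_neg]
    apply integral_congr_ae
    refine Filter.Eventually.of_forall (fun ξ => ?_)
    simp only [ContinuousLinearMap.smul_apply, DF_apply, smul_eq_mul, zero_add,
      Real.cos_add_pi_div_two]
    ring
  · intro x
    have k1 : ∀ e : E, Integrable (fun ξ : E => Real.cos (inner ℝ ξ x) * (inner ℝ ξ e * (inner ℝ ξ e * f ξ))) := by
      intro e
      refine ((bnd 2 (by norm_num)).const_mul (‖e‖ ^ 2)).mono' ?_ ?_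
      · exact Continuous.aestronglyMeasurable (by fun_prop)
      · refine Filter.Eventually.of_forall (fun ξ => ?_)
        rw [norm_mul, norm_mul, norm_mul, Real.norm_eq_abs, Real.norm_eq_abs (f ξ)]
        have hin := norm_inner_le_norm (𝕜 := ℝ) ξ e
        calc |Real.cos (inner ℝ ξ x)| * (‖(inner ℝ ξ e : ℝ)‖ * (‖(inner ℝ ξ e : ℝ)‖ * |f ξ|))
            ≤ 1 * ((‖ξ‖ * ‖e‖) * ((‖ξ‖ * ‖e‖) * |f ξ|)) := by
              apply mul_le_mul (Real.abs_cos_le_one _) _ (by positivity) zero_le_one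
              apply mul_le_mul hin _ (by positivity) (by positivity)
              exact mul_le_mul_of_nonneg_right hin (abs_nonneg _)
          _ = ‖e‖ ^ 2 * (‖ξ‖ ^ 2 * |f ξ|) := by ring
    have key : ∀ e : E, iteratedFDeriv ℝ 2 (CT f) x ![e, e] =
        -∫ ξ, Real.cos (inner ℝ ξ x) * (inner ℝ ξ e * (inner ℝ ξ e * f ξ)) := by
      intro e
      rw [iteratedFDeriv_two_apply]
      simp only [Matrix.cons_val_zero, Matrix.cons_val_one]
      have d2 := (gen (DF f) hg1 j0 j1 (0 + π / 2) x).fderiv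
      rw [d1', d2]
      have m0 : Integrable (DF (DF f)) := int_DF (DF f) hg1 j1
      have m1 := int_cos (DF (DF f)) m0 (0 + π / 2 + π / 2) x
      rw [ContinuousLinearMap.integral_apply m1]
      have m2 : Integrable (fun ξ => (Real.cos (inner ℝ ξ x + (0 + π / 2 + π / 2)) • DF (DF f) ξ) e) :=
        (ContinuousLinearMap.apply ℝ (E →L[ℝ] ℝ) e).integrable_comp m1
      rw [ContinuousLinearMap.integral_apply m2, ← integral_neg]
      apply integral_congr_ae
      refine Filter.Eventually.of_forall (fun ξ => ?_)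
      simp only [ContinuousLinearMap.smul_apply, DF_apply, smul_eq_mul, zero_add]
      rw [← add_assoc, Real.cos_add_pi_div_two, Real.sin_add_pi_div_two]
      ring
    simp only [key]
    rw [Finset.sum_neg_distrib, ← integral_finset_sum _ (fun i _ => k1 _), ← integral_neg]
    unfold CT
    apply integral_congr_ae
    refine Filter.Eventually.of_forall (fun ξ => ?_)
    simp only [EuclideanSpace.inner_single_right, Fin.sum_univ_three]
    rw [EuclideanSpace.norm_sq_eq, Fin.sum_univ_three]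
    simp only [Real.norm_eq_abs, sq_abs, conj_trivial]
    ring

end Pool.Agent.W696.KG
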